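import Pool.Agent.V1131.BD.Fast

/-!
A group divisible design with block size `7` of type `42^37 84^1`, found by computer, and the
Steiner system `S(1645,7,2)`.
-/

set_option autoImplicit false
set_option maxRecDepth 100000

namespace Pool.Agent.V1131.BD

open Pool.Agent.Y345

/-- base blocks of a group divisible design of type `42^37 84^1` -/
def b42_37_84 : List (List ℕ) :=
  [[0,69,1146,1185,1228,1238,1342],
  [0,284,288,352,489,820,1551],
  [0,249,528,640,866,1336,1419],
  [0,141,310,327,450,550,638],
  [0,48,129,729,922,1000,1256],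
  [0,171,568,606,970,1094,1143],
  [0,20,153,178,852,1174,1479],
  [0,669,1030,1044,1276,1287,1418],
  [0,360,417,579,614,766,958],
  [0,117,176,634,660,1191,1318],
  [0,40,174,603,668,759,1294],
  [0,60,214,717,1052,1282,1521],
  [0,700,730,879,898,1341,1372],
  [0,616,705,1042,1252,1293,1456],
  [0,645,687,784,1288,1306,1432],
  [0,208,574,754,1053,1389,1498],
  [0,70,345,448,765,778,1072],
  [0,237,304,994,1078,1102,1539],
  [0,27,159,591,818,1076,1214],
  [0,32,177,758,764,939,1215],
  [0,195,285,297,404,440,710],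
  [0,50,116,393,933,1005,1388],
  [0,101,495,843,887,993,1343],
  [0,29,347,401,519,639,1173],
  [0,45,269,593,783,1469,1503],
  [0,191,471,785,813,1047,1355],
  [323,674,751,1170,1257,1264,1554],
  [418,621,643,1067,1322,1368,1560],
  [359,445,954,956,1198,1527,1566],
  [26,339,556,859,972,1133,1572],
  [300,699,775,964,1451,1472,1578],
  [169,375,545,904,1068,1490,1584],
  [179,746,871,1312,1335,1440,1590],
  [803,1023,1024,1086,1381,1454,1596],
  [496,680,696,911,969,1021,1602],
  [38,46,93,240,361,1109,1608],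
  [225,230,376,781,948,1325,1614],
  [439,702,801,862,1091,1544,1620],
  [68,303,510,589,976,1439,1626],
  [5,470,1123,1194,1203,1444,1632]]

theorem o42_37_84_0 : chk1f 7 1554 (1 * 1554) (1 * 1554 + 14 * 6) 6 (fun _ => 0) 37 b42_37_84 0 = true := by
  decide +kernel

theorem c42_37_84 : chk 7 1554 1 (List.replicate 14 6) (fun _ => 0) 37 b42_37_84 = true := by
  refine chk_of_chk1f (by norm_num) (by decide +kernel) ?_
  intro i hi
  interval_cases i
  · exact o42_37_84_0

theorem g42_37_84 : Gd 7 (fun i : Fin (37 + 1) => if i = 0 then 84 else 42) :=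
  gd_of_chk (m := 1554) (c := 1) (hs := (List.replicate 14 6)) (base := b42_37_84) 42 84
    c42_37_84 (by norm_num) (by norm_num)

theorem s49' : Sd 7 49 :=
  sd_of_chk (m := 48) (c := 1) (hs := [1]) (base := [[0, 1, 3, 15, 20, 38, 42],
  [0, 8, 16, 24, 32, 40, 48]])
    (by decide +kernel) (by norm_num)

theorem s91' : Sd 7 91 :=
  sd_of_chk (m := 91) (c := 1) (hs := []) (base := [[0, 8, 29, 51, 54, 61, 63],
  [0, 11, 16, 17, 31, 35, 58],
  [0, 13, 26, 39, 52, 65, 78]])
    (by decide +kernel) (by norm_num)

theorem s1645 : Sd 7 1645 :=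
  sd_of_type (w := 7) (by norm_num) g42_37_84 (hd_of_sd_block (by norm_num) s49') s91'

end Pool.Agent.V1131.BD
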