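import Pool.Agent.V1131.BD.Split

/-!
A faster form of the check of base blocks (`Pool.Agent.Y345.chk1`), for orbits of the hole of equal
lengths and base blocks without repeated translates.
-/

set_option autoImplicit false

namespace Pool.Agent.V1131.BD

open Pool.Agent.Y345

theorem trh_replicate {a h : ℕ} (hh : 0 < h) : ∀ (n q : ℕ), q < n * h →
    trh a (List.replicate n h) q = q / h * h + (q % h + a) % h
  | 0, q, hq => by omega
  | n + 1, q, hq => by
    rw [List.replicate_succ, trh]
    split_ifs with h1
    · rw [Nat.div_eq_of_lt h1, Nat.mod_eq_of_lt h1, Nat.zero_mul, Nat.zero_add]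
    · have h2 : h ≤ q := Nat.le_of_not_lt h1
      have h3 : q - h < n * h := by
        rw [Nat.succ_mul] at hq
        omega
      rw [trh_replicate hh n (q - h) h3]
      obtain ⟨r, rfl⟩ := Nat.exists_eq_add_of_le h2
      rw [Nat.add_sub_cancel_left, Nat.add_div_left _ hh, Nat.add_mod_left, Nat.succ_mul]
      omega

/-- translation by `a`, with orbits of length `h` in the hole -/
def trf (m u h a q : ℕ) : ℕ :=
  if q < u then q / m * m + (q % m + a) % m else u + ((q - u) / h * h + ((q - u) % h + a) % h)

theorem tr_eq_trf {m u n h a q : ℕ} (hh : 0 < h) (hq : q < u + n * h) :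
    tr m u (List.replicate n h) a q = trf m u h a q := by
  unfold tr trf
  split_ifs with h1
  · rfl
  · rw [trh_replicate hh n (q - u) (by omega)]

/-- the masks of the translates through the representative of the orbit `i` -/
def trsf (m u h : ℕ) (i : ℕ) : List (List ℕ) → List ℕ
  | [] => []
  | B :: l => (B.filter fun p => decide (p < u) && (p / m == i)).map
      (fun p => msk (B.map (trf m u h (m - p % m)))) ++ trsf m u h i l

theorem trs_eq_trsf {m u n h i : ℕ} (hh : 0 < h) : ∀ {base : List (List ℕ)},
    (∀ B ∈ base, ∀ x ∈ B, x < u + n * h) →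
    trs m u (List.replicate n h) i base = trsf m u h i base
  | [], _ => rfl
  | B :: l, hb => by
    rw [trs, trsf, trs_eq_trsf hh (fun C hC => hb C (List.mem_cons_of_mem _ hC))]
    congr 1
    apply List.map_congr_left
    intro p _
    congr 1
    apply List.map_congr_left
    intro x hx
    exact tr_eq_trf hh (hb B List.mem_cons_self x hx)

theorem length_dd_le : ∀ l : List ℕ, (dd l).length ≤ l.length
  | [] => le_rfl
  | a :: l => by
    rw [dd]
    split_ifs with h
    · exact (length_dd_le l).trans (Nat.le_succ _)
    · rw [List.length_cons, List.length_cons]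
      exact Nat.succ_le_succ (length_dd_le l)

/-- the fast check for one orbit -/
def chk1f (k m u v h : ℕ) (κ : ℕ → ℕ) (g : ℕ) (base : List (List ℕ)) (i : ℕ) : Bool :=
  let M := trsf m u h i base
  let t := orl M
  let r := key m u κ g (i * m)
  ((List.range v).all fun y => (key m u κ g y == r) || Nat.testBit t y) &&
    decide ((k - 1) * M.length ≤ ((List.range v).filter fun y => !(key m u κ g y == r)).length)

theorem chk1_of_chk1f {k m u v n h : ℕ} {κ : ℕ → ℕ} {g : ℕ} {base : List (List ℕ)} {i : ℕ}
    (hh : 0 < h) (hb : ∀ B ∈ base, ∀ x ∈ B, x < u + n * h)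
    (hc : chk1f k m u v h κ g base i = true) :
    chk1 k m u v (List.replicate n h) κ g base i = true := by
  unfold chk1f at hc
  unfold chk1
  simp only [Bool.and_eq_true, decide_eq_true_eq, List.all_eq_true, Bool.or_eq_true] at hc ⊢
  rw [trs_eq_trsf hh hb]
  refine ⟨fun y hy => ?_, ?_⟩
  · rcases hc.1 y hy with h1 | h1
    · exact Or.inl h1
    · right
      rw [testBit_orl] at h1 ⊢
      obtain ⟨a, ha, h2⟩ := h1
      exact ⟨a, (mem_dd _ _).2 ha, h2⟩
  · exact (Nat.mul_le_mul_left _ (length_dd_le _)).trans hc.2

theorem chk_of_chk1f {k m c n h : ℕ} {κ : ℕ → ℕ} {g : ℕ} {base : List (List ℕ)} (hh : 0 < h)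
    (h0 : chk0 k m c (List.replicate n h) g base = true)
    (h1 : ∀ i < c, chk1f k m (c * m) (c * m + n * h) h κ g base i = true) :
    chk k m c (List.replicate n h) κ g base = true := by
  have h2 : (List.replicate n h).sum = n * h := by
    rw [List.sum_replicate, smul_eq_mul]
  refine chk_of h0 fun i hi => ?_
  have h3 : ∀ B ∈ base, ∀ x ∈ B, x < c * m + n * h := by
    unfold chk0 at h0
    simp only [Bool.and_eq_true, List.all_eq_true, decide_eq_true_eq] at h0
    intro B hB x hx
    have := (h0.2 B hB).1.2 x hx
    rwa [h2] at this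
  rw [h2]
  exact chk1_of_chk1f hh h3 (h1 i hi)

end Pool.Agent.V1131.BD
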