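import Pool.Agent.Y345.Types2

/-!
The check of base blocks (`Pool.Agent.Y345.chk`) from its parts: one statement for each orbit, so
that the kernel can deal with them one after the other.
-/

set_option autoImplicit false

namespace Pool.Agent.V1131.BD

open Pool.Agent.Y345

/-- the part of the check that does not depend on the orbit -/
def chk0 (k m c : ℕ) (hs : List ℕ) (g : ℕ) (base : List (List ℕ)) : Bool :=
  decide (2 ≤ k) && decide (0 < m) && decide (0 < g) && (m % g == 0) &&
    (hs.all fun s => decide (0 < s) && (m % s == 0)) &&
    (base.all fun B => (B.length == k) && decide B.Nodup &&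
      (B.all fun x => decide (x < c * m + hs.sum)) &&
      decide ((B.filter fun x => !decide (x < c * m)).length ≤ 1))

theorem chk_of {k m c : ℕ} {hs : List ℕ} {κ : ℕ → ℕ} {g : ℕ} {base : List (List ℕ)}
    (h0 : chk0 k m c hs g base = true)
    (h1 : ∀ i < c, chk1 k m (c * m) (c * m + hs.sum) hs κ g base i = true) :
    chk k m c hs κ g base = true := by
  unfold chk
  unfold chk0 at h0
  rw [Bool.and_eq_true]
  refine ⟨h0, ?_⟩
  rw [List.all_eq_true]
  intro i hi
  exact h1 i (List.mem_range.1 hi)

end Pool.Agent.V1131.BD
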