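import Pool.Agent.V1131.BD.Split

/-!
Products of transversal designs, and a Steiner system `S(649,9,2)`.
-/

set_option autoImplicit false
set_option maxRecDepth 100000

namespace Pool.Agent.V1131.BD

open Pool.Agent.Y345

/-- removing an empty group -/
theorem gd_pred {k n a : ℕ} (hk : 2 ≤ k) (h : Gd k (fun i : Fin (n + 1 + 1) => if i = 0 then 0 else a)) :
    Gd k (fun _ : Fin (n + 1) => a) := by
  have h2 := De.map h hk
    (fun p : Fin (n + 1 + 1) × ℕ => ((⟨p.1.val - 1, by omega⟩ : Fin (n + 1)), p.2))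
    (fun p => p.1 ≠ 0)
    (by
      rintro ⟨i, u⟩ ⟨j, v⟩ _ ⟨_, h1, h2⟩
      constructor
      · rintro h3
        simp only at h3 h1
        rw [if_pos h3] at h1
        omega
      · rintro h3
        simp only at h3 h2
        rw [if_pos h3] at h2
        omega)
    (by
      rintro ⟨i, u⟩ ⟨j, v⟩ h1 h2 h3
      simp only [Prod.mk.injEq, Fin.mk.injEq] at h3 h1 h2 ⊢
      refine ⟨?_, h3.2⟩
      have h4 : i.val ≠ 0 := fun h => h1 (Fin.ext h)
      have h5 : j.val ≠ 0 := fun h => h2 (Fin.ext h)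
      exact Fin.ext (by omega))
  refine De.congr h2 ?_
  rintro ⟨i, u⟩ ⟨j, v⟩ _
  constructor
  · rintro ⟨⟨i', u'⟩, ⟨j', v'⟩, h3, h4, _, h5, h6, h7⟩
    simp only [Prod.mk.injEq] at h3 h4 h5 h6 h7
    obtain ⟨h3, rfl⟩ := h3
    obtain ⟨h4, rfl⟩ := h4
    have h8 : i' ≠ 0 := by
      intro h
      rw [if_pos h] at h6
      omega
    have h9 : j' ≠ 0 := by
      intro h
      rw [if_pos h] at h7
      omega
    rw [if_neg h8] at h6
    rw [if_neg h9] at h7
    refine ⟨?_, h6, h7⟩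
    rw [← h3, ← h4]
    intro h
    rw [Fin.mk.injEq] at h
    have h10 : i'.val ≠ 0 := fun h => h8 (Fin.ext h)
    have h11 : j'.val ≠ 0 := fun h => h9 (Fin.ext h)
    exact h5 (Fin.ext (by omega))
  · rintro ⟨h3, h4, h5⟩
    simp only at h3 h4 h5
    refine ⟨(i.succ, u), (j.succ, v), ?_, ?_, ?_, ?_, ?_, ?_⟩
    · simp
    · simp
    · intro h
      rw [Prod.mk.injEq] at h
      exact h3 (Fin.succ_injective _ h.1)
    · intro h
      exact h3 (Fin.succ_injective _ h)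
    · simp only [if_neg (Fin.succ_ne_zero i)]
      exact h4
    · simp only [if_neg (Fin.succ_ne_zero j)]
      exact h5

/-- the product of two transversal designs -/
theorem td_mul {k a b : ℕ} (hk : 2 ≤ k) (h1 : Gd k (fun _ : Fin k => a))
    (h2 : Gd k (fun _ : Fin k => b)) : Gd k (fun _ : Fin k => a * b) := by
  classical
  obtain ⟨𝓑, c1, c2, c3⟩ := h1
  have key : ∀ B ∈ 𝓑, ∃ β : Fin k → Fin k × ℕ, (∀ i, β i ∈ B ∧ (β i).1 = i) ∧
      ∀ x ∈ B, β x.1 = x := by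
    intro B hB
    have hinj : Set.InjOn (fun x : Fin k × ℕ => x.1) B := by
      intro x hx y hy hxy
      by_contra hne
      exact (c2 B hB x hx y hy hne).1 hxy
    have himg : B.image (fun x : Fin k × ℕ => x.1) = Finset.univ := by
      apply Finset.eq_univ_of_card
      rw [Finset.card_image_of_injOn hinj, c1 B hB, Fintype.card_fin]
    have hex : ∀ i : Fin k, ∃ x ∈ B, x.1 = i := by
      intro i
      have : i ∈ B.image (fun x : Fin k × ℕ => x.1) := by
        rw [himg]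
        exact Finset.mem_univ i
      obtain ⟨x, hx, hxi⟩ := Finset.mem_image.1 this
      exact ⟨x, hx, hxi⟩
    choose β hβ hβ1 using hex
    exact ⟨β, fun i => ⟨hβ i, hβ1 i⟩, fun x hx => hinj (hβ x.1) hx (hβ1 x.1)⟩
  have hw := De.weight (k := k) (E := fun p q : Fin k × ℕ => p.1 ≠ q.1 ∧ p.2 < a ∧ q.2 < a)
    {A | ∃ B ∈ 𝓑, A = (B : Set (Fin k × ℕ))} (fun _ => b)
    (by
      rintro A ⟨B, hB, rfl⟩ x hx y hy hxy
      exact c2 B hB x hx y hy hxy)
    (by
      intro x y hxy hE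
      obtain ⟨B, hB, hx, hy, _⟩ := c3 x y hxy hE
      exact ⟨B, ⟨B, hB, rfl⟩, hx, hy⟩)
    (by
      rintro A ⟨B, hB, rfl⟩ A' ⟨B', hB', rfl⟩ x y hxy hx hy hx' hy'
      obtain ⟨D, hD, _, _, hu⟩ := c3 x y hxy (c2 B hB x hx y hy hxy)
      rw [hu B hB hx hy, hu B' hB' hx' hy'])
    (by
      rintro x ⟨h, -⟩
      exact h rfl)
    (by
      rintro A ⟨B, hB, rfl⟩
      obtain ⟨β, hβ, hβ2⟩ := key B hB
      have h3 := De.map h2 hk (fun p : Fin k × ℕ => (β p.1, p.2)) (fun _ => True)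
        (fun _ _ _ _ => ⟨trivial, trivial⟩)
        (by
          rintro ⟨i, u⟩ ⟨j, v⟩ _ _ h
          simp only [Prod.mk.injEq] at h ⊢
          refine ⟨?_, h.2⟩
          rw [← (hβ i).2, ← (hβ j).2, h.1])
      refine De.congr h3 ?_
      rintro ⟨p, u⟩ ⟨q, v⟩ _
      constructor
      · rintro ⟨⟨i, u'⟩, ⟨j, v'⟩, h4, h5, _, h6, h7, h8⟩
        simp only [Prod.mk.injEq] at h4 h5 h6 h7 h8
        obtain ⟨h4, rfl⟩ := h4
        obtain ⟨h5, rfl⟩ := h5
        subst h4 h5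
        refine ⟨?_, (hβ i).1, (hβ j).1, h7, h8⟩
        intro h
        simp only at h
        apply h6
        rw [← (hβ i).2, ← (hβ j).2, h]
      · rintro ⟨h4, h5, h6, h7, h8⟩
        simp only at h4 h5 h6 h7 h8
        have h9 : p.1 ≠ q.1 := (c2 B hB p h5 q h6 h4).1
        refine ⟨(p.1, u), (q.1, v), ?_, ?_, ?_, h9, h7, h8⟩
        · simp only [hβ2 p h5]
        · simp only [hβ2 q h6]
        · intro h
          rw [Prod.mk.injEq] at h
          exact h9 h.1)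
  have h4 := De.map hw hk (fun p : (Fin k × ℕ) × ℕ => (p.1.1, p.1.2 * b + p.2))
    (fun p => p.2 < b)
    (by
      rintro p q _ ⟨_, h5, h6⟩
      exact ⟨h5, h6⟩)
    (by
      rintro ⟨⟨i, u⟩, x⟩ ⟨⟨j, v⟩, y⟩ h5 h6 h7
      simp only [Prod.mk.injEq] at h5 h6 h7 ⊢
      obtain ⟨rfl, h7⟩ := h7
      have h8 : u = v := by
        have e1 : (u * b + x) / b = u := by
          rw [mul_comm, Nat.mul_add_div (by omega), Nat.div_eq_of_lt h5, add_zero]
        have e2 : (v * b + y) / b = v := by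
          rw [mul_comm, Nat.mul_add_div (by omega), Nat.div_eq_of_lt h6, add_zero]
        rw [← e1, ← e2, h7]
      subst h8
      refine ⟨⟨rfl, rfl⟩, ?_⟩
      omega)
  refine De.congr h4 ?_
  rintro ⟨i, x⟩ ⟨j, y⟩ _
  constructor
  · rintro ⟨⟨⟨i', u⟩, x'⟩, ⟨⟨j', v⟩, y'⟩, h5, h6, _, ⟨h7, h8, h9⟩, h10, h11⟩
    simp only [Prod.mk.injEq] at h5 h6 h7 h8 h9 h10 h11
    obtain ⟨rfl, rfl⟩ := h5
    obtain ⟨rfl, rfl⟩ := h6
    refine ⟨h7, ?_, ?_⟩
    · show u * b + x' < a * b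
      calc u * b + x' < u * b + b := by omega
        _ = (u + 1) * b := by ring
        _ ≤ a * b := Nat.mul_le_mul_right b h8
    · show v * b + y' < a * b
      calc v * b + y' < v * b + b := by omega
        _ = (v + 1) * b := by ring
        _ ≤ a * b := Nat.mul_le_mul_right b h9
  · rintro ⟨h5, h6, h7⟩
    simp only at h5 h6 h7
    have hb : 0 < b := by
      rcases Nat.eq_zero_or_pos b with h | h
      · subst h
        omega
      · exact h
    refine ⟨((i, x / b), x % b), ((j, y / b), y % b), ?_, ?_, ?_, ⟨h5, ?_, ?_⟩, ?_, ?_⟩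
    · simp only [Prod.mk.injEq, true_and]
      rw [mul_comm]
      exact Nat.div_add_mod x b
    · simp only [Prod.mk.injEq, true_and]
      rw [mul_comm]
      exact Nat.div_add_mod y b
    · intro h
      simp only [Prod.mk.injEq] at h
      exact h5 h.1.1
    · exact Nat.div_lt_of_lt_mul (by rwa [mul_comm] at h6)
    · exact Nat.div_lt_of_lt_mul (by rwa [mul_comm] at h7)
    · exact Nat.mod_lt _ hb
    · exact Nat.mod_lt _ hb

/-- a transversal design with nine groups of size `8` -/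
def btd8 : List (List ℕ) :=
  [[0,8,16,24,32,40,48,56,64],
  [1,9,17,25,33,41,49,57,64],
  [2,10,18,26,34,42,50,58,64],
  [3,11,19,27,35,43,51,59,64],
  [4,12,20,28,36,44,52,60,64],
  [5,13,21,29,37,45,53,61,64],
  [6,14,22,30,38,46,54,62,64],
  [7,15,23,31,39,47,55,63,64],
  [0,9,18,27,36,45,54,63,65],
  [1,8,19,26,37,44,55,62,65],
  [2,11,16,25,38,47,52,61,65],
  [3,10,17,24,39,46,53,60,65],
  [4,13,22,31,32,41,50,59,65],
  [5,12,23,30,33,40,51,58,65],
  [6,15,20,29,34,43,48,57,65],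
  [7,14,21,28,35,42,49,56,65],
  [0,10,20,30,35,41,55,61,66],
  [1,11,21,31,34,40,54,60,66],
  [2,8,22,28,33,43,53,63,66],
  [3,9,23,29,32,42,52,62,66],
  [4,14,16,26,39,45,51,57,66],
  [5,15,17,27,38,44,50,56,66],
  [6,12,18,24,37,47,49,59,66],
  [7,13,19,25,36,46,48,58,66],
  [0,11,22,29,39,44,49,58,67],
  [1,10,23,28,38,45,48,59,67],
  [2,9,20,31,37,46,51,56,67],
  [3,8,21,30,36,47,50,57,67],
  [4,15,18,25,35,40,53,62,67],
  [5,14,19,24,34,41,52,63,67],
  [6,13,16,27,33,42,55,60,67],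
  [7,12,17,26,32,43,54,61,67],
  [0,12,19,31,38,42,53,57,68],
  [1,13,18,30,39,43,52,56,68],
  [2,14,17,29,36,40,55,59,68],
  [3,15,16,28,37,41,54,58,68],
  [4,8,23,27,34,46,49,61,68],
  [5,9,22,26,35,47,48,60,68],
  [6,10,21,25,32,44,51,63,68],
  [7,11,20,24,33,45,50,62,68],
  [0,13,17,28,34,47,51,62,69],
  [1,12,16,29,35,46,50,63,69],
  [2,15,19,30,32,45,49,60,69],
  [3,14,18,31,33,44,48,61,69],
  [4,9,21,24,38,43,55,58,69],
  [5,8,20,25,39,42,54,59,69],
  [6,11,23,26,36,41,53,56,69],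
  [7,10,22,27,37,40,52,57,69],
  [0,14,23,25,37,43,50,60,70],
  [1,15,22,24,36,42,51,61,70],
  [2,12,21,27,39,41,48,62,70],
  [3,13,20,26,38,40,49,63,70],
  [4,10,19,29,33,47,54,56,70],
  [5,11,18,28,32,46,55,57,70],
  [6,8,17,31,35,45,52,58,70],
  [7,9,16,30,34,44,53,59,70],
  [0,15,21,26,33,46,52,59,71],
  [1,14,20,27,32,47,53,58,71],
  [2,13,23,24,35,44,54,57,71],
  [3,12,22,25,34,45,55,56,71],
  [4,11,17,30,37,42,48,63,71],
  [5,10,16,31,36,43,49,62,71],
  [6,9,19,28,39,40,50,61,71],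
  [7,8,18,29,38,41,51,60,71]]

theorem td8 : Gd 9 (fun _ : Fin 9 => 8) :=
  gd_pred (n := 8) (by norm_num) (gd_of_chk2 (k := 9) (m := 1) (r := 8) (s := 9) (g := 1) (hs := [])
    (base := btd8) 8 0 (by decide +kernel) (by norm_num) (by norm_num) (by norm_num))

/-- a transversal design with nine groups of size `9` -/
def btd9 : List (List ℕ) :=
  [[0,9,18,27,36,45,54,63,72],
  [1,10,19,28,37,46,55,64,73],
  [2,11,20,29,38,47,56,65,74],
  [3,12,21,30,39,48,57,66,75],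
  [4,13,22,31,40,49,58,67,76],
  [5,14,23,32,41,50,59,68,77],
  [6,15,24,33,42,51,60,69,78],
  [7,16,25,34,43,52,61,70,79],
  [8,17,26,35,44,53,62,71,80],
  [0,10,20,30,40,50,60,70,80],
  [1,11,18,31,41,48,61,71,78],
  [2,9,19,32,39,49,62,69,79],
  [3,13,23,33,43,53,54,64,74],
  [4,14,21,34,44,51,55,65,72],
  [5,12,22,35,42,52,56,63,73],
  [6,16,26,27,37,47,57,67,77],
  [7,17,24,28,38,45,58,68,75],
  [8,15,25,29,36,46,59,66,76],
  [0,11,19,33,44,52,57,68,76],
  [1,9,20,34,42,53,58,66,77],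
  [2,10,18,35,43,51,59,67,75],
  [3,14,22,27,38,46,60,71,79],
  [4,12,23,28,36,47,61,69,80],
  [5,13,21,29,37,45,62,70,78],
  [6,17,25,30,41,49,54,65,73],
  [7,15,26,31,39,50,55,63,74],
  [8,16,24,32,40,48,56,64,72],
  [0,12,24,29,41,53,55,67,79],
  [1,13,25,27,39,51,56,68,80],
  [2,14,26,28,40,52,54,66,78],
  [3,15,18,32,44,47,58,70,73],
  [4,16,19,30,42,45,59,71,74],
  [5,17,20,31,43,46,57,69,72],
  [6,9,21,35,38,50,61,64,76],
  [7,10,22,33,36,48,62,65,77],
  [8,11,23,34,37,49,60,63,75],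
  [0,13,26,32,42,46,61,65,75],
  [1,14,24,30,43,47,62,63,76],
  [2,12,25,31,44,45,60,64,77],
  [3,16,20,35,36,49,55,68,78],
  [4,17,18,33,37,50,56,66,79],
  [5,15,19,34,38,48,54,67,80],
  [6,10,23,29,39,52,58,71,72],
  [7,11,21,27,40,53,59,69,73],
  [8,9,22,28,41,51,57,70,74],
  [0,14,25,35,37,48,58,69,74],
  [1,12,26,33,38,49,59,70,72],
  [2,13,24,34,36,50,57,71,73],
  [3,17,19,29,40,51,61,63,77],
  [4,15,20,27,41,52,62,64,75],
  [5,16,18,28,39,53,60,65,76],
  [6,11,22,32,43,45,55,66,80],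
  [7,9,23,30,44,46,56,67,78],
  [8,10,21,31,42,47,54,68,79],
  [0,15,21,28,43,49,56,71,77],
  [1,16,22,29,44,50,54,69,75],
  [2,17,23,27,42,48,55,70,76],
  [3,9,24,31,37,52,59,65,80],
  [4,10,25,32,38,53,57,63,78],
  [5,11,26,30,36,51,58,64,79],
  [6,12,18,34,40,46,62,68,74],
  [7,13,19,35,41,47,60,66,72],
  [8,14,20,33,39,45,61,67,73],
  [0,16,23,31,38,51,62,66,73],
  [1,17,21,32,36,52,60,67,74],
  [2,15,22,30,37,53,61,68,72],
  [3,10,26,34,41,45,56,69,76],
  [4,11,24,35,39,46,54,70,77],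
  [5,9,25,33,40,47,55,71,75],
  [6,13,20,28,44,48,59,63,79],
  [7,14,18,29,42,49,57,64,80],
  [8,12,19,27,43,50,58,65,78],
  [0,17,22,34,39,47,59,64,78],
  [1,15,23,35,40,45,57,65,79],
  [2,16,21,33,41,46,58,63,80],
  [3,11,25,28,42,50,62,67,72],
  [4,9,26,29,43,48,60,68,73],
  [5,10,24,27,44,49,61,66,74],
  [6,14,19,31,36,53,56,70,75],
  [7,12,20,32,37,51,54,71,76],
  [8,13,18,30,38,52,55,69,77]]

theorem td9 : Gd 9 (fun _ : Fin 9 => 9) :=
  gd_pred (n := 8) (by norm_num) (gd_of_chk2 (k := 9) (m := 1) (r := 9) (s := 9) (g := 1) (hs := [])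
    (base := btd9) 9 0 (by decide +kernel) (by norm_num) (by norm_num) (by norm_num))

theorem s73 : Sd 9 73 :=
  sd_of_chk (m := 73) (c := 1) (hs := []) (base := [[1, 2, 4, 8, 16, 32, 37, 55, 64]]) (by decide +kernel) (by norm_num)

theorem s649 : Sd 9 649 := by
  have h := fillS (w := 1) (by norm_num) (td_mul (by norm_num) td8 td9) 0
    (fun _ _ => hd_of_sd le_rfl s73) s73
  simpa using h

end Pool.Agent.V1131.BD
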